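import Pool.Agent.H40.AG.Base
import Pool.Agent.H40.AG.TargetsE

/-!
ABSOLUTE GAP (`MP_c59857_nt`), board gap_modules: row PXF (the factor maps)
-/

set_option autoImplicit false

open MeasureTheory ProbabilityTheory Filter Topology Finset
open scoped Nat ENNReal

namespace Pool.Agent.H68.AG

open Pool.Agent.H67.AG Pool.Agent.H40.AG

theorem pf_PXF (hPXL : T_PXL) (_hPXT : T_PXT) (hPNL : T_PNL) : T_PXF := by
  intro X _ _ μ _ T Z n R _ hT hZ hR1 hR2 hR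
  obtain ⟨hp1, hp2, hp3, hp4, hp5, hp6⟩ := hPXL X μ Z n R hR1 hR2
  obtain ⟨hn1, hn2, hn3, hn4, hn5⟩ := hPNL X μ Z n
  refine ⟨⟨hp3, fun q => rfl⟩, fun b => ⟨hp4 b, fun q => rfl⟩, fun b => ⟨(hn3 b).comp hp3, fun q => rfl⟩,
    ⟨hp6, fun q => rfl⟩, ⟨hR1.comp hp2, fun q => rfl⟩, fun a b hab => ⟨hn5 a b hab, fun q => rfl⟩,
    fun b => ⟨hn3 b, fun q => rfl⟩, ⟨hn2, fun q => rfl⟩, fun a b hab => ⟨(hn5 a b hab).comp hp3, fun q => rfl⟩⟩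

end Pool.Agent.H68.AG
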