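import Pool.Agent.H40.AG.Base
import Pool.Agent.H40.AG.TargetsE

/-!
ABSOLUTE GAP (`MP_c59857_nt`), board gap_modules: row QQT
-/

set_option autoImplicit false

open MeasureTheory ProbabilityTheory Filter Topology Finset
open scoped Nat ENNReal

namespace Pool.Agent.H68.AG

open Pool.Agent.H67.AG Pool.Agent.H40.AG

theorem pf_QQT (hPXL : T_PXL) (hPXT : T_PXT) (hJ2 : T_J2) : T_QQT := by
  intro X _ _ μ _ T Z R _ hT hZ hR1 hR2 hR
  obtain ⟨hp1, hp2, hp3, hp4, hp5, hp6⟩ := hPXL X μ Z 1 R hR1 hR2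
  have hq := hp4 0
  have hX := hPXT X μ T Z 1 R hT hZ hR1 hR2 hR
  have hprob : IsProbabilityMeasure (QQ μ Z R) := by
    rw [← hq.map_eq]
    exact Measure.isProbabilityMeasure_map hq.measurable.aemeasurable
  refine ⟨hprob, ⟨(TT T).measurable, ?_⟩, ?_, ?_⟩
  · rw [← hq.map_eq, Measure.map_map (TT T).measurable hq.measurable]
    have h1 : (TT T) ∘ (fun q : XX X 1 => (q.2.1 0, q.2.2)) =
        (fun q : XX X 1 => (q.2.1 0, q.2.2)) ∘ (TX T 1) := rfl
    rw [h1, ← Measure.map_map hq.measurable (TX T 1).measurable, hX.map_eq]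
  · refine ⟨measurable_fst, ?_⟩
    rw [← hq.map_eq, Measure.map_map measurable_fst hq.measurable]
    have h1 : (Prod.fst ∘ fun q : XX X 1 => (q.2.1 0, q.2.2)) =
        (fun q : XN X 1 => q.2 0) ∘ prX X 1 := rfl
    have hm : Measurable (fun q : XN X 1 => q.2 0) :=
      (measurable_pi_apply 0).comp measurable_snd
    rw [h1, ← Measure.map_map hm hp3.measurable, hp3.map_eq]
    ext A hA
    rw [Measure.map_apply hm hA]
    have h2 : PN μ Z 1 ((fun q : XN X 1 => q.2 0) ⁻¹' A) = ∫⁻ x, kap μ Z x A ∂μ := by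
      unfold PN
      rw [Measure.compProd_apply (hm hA)]
      refine lintegral_congr fun x => ?_
      have h3 := measurePreserving_eval (fun _ : Fin 1 => kap μ Z x) 0
      exact h3.measure_preimage hA.nullMeasurableSet
    have h4 : μ A = ∫⁻ x, kap μ Z x A ∂μ := by
      obtain ⟨_, _, h5, _⟩ := hJ2 X μ Z
      rw [← h5.measure_preimage hA.nullMeasurableSet]
      unfold JJ
      rw [Measure.compProd_apply (measurable_snd hA)]
      rfl
    rw [h2, h4]
  · refine ⟨measurable_snd, ?_⟩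
    rw [← hq.map_eq, Measure.map_map measurable_snd hq.measurable]
    exact hp6.map_eq

end Pool.Agent.H68.AG
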