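import Pool.Agent.H67.AG.T6

/-!
ABSOLUTE GAP (`MP_c59857_nt`), board gap_modules: row SW (the switching lemma from its parts)
-/

set_option autoImplicit false

open MeasureTheory ProbabilityTheory Filter Topology Finset
open scoped Nat ENNReal

namespace Pool.Agent.H68.AG

open Pool.Agent.H67.AG

theorem inv_le' {Ω : Type} [mΩ : MeasurableSpace Ω] (T : Ω ≃ᵐ Ω) (n : ℕ) : Inv T n ≤ mΩ :=
  MeasurableSpace.invariants_le _

theorem mis_meas {Ω : Type} (m : MeasurableSpace Ω) [mΩ : MeasurableSpace Ω] {k : ℕ}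
    (P : Measure Ω) (y y' : Fin k → Ω → ℝ) : Measurable[m] (Mis P m y y') := by
  unfold Mis
  exact Finset.measurable_fun_sum _ fun i _ => stronglyMeasurable_condExp.measurable

theorem mis_int {Ω : Type} (m : MeasurableSpace Ω) [mΩ : MeasurableSpace Ω] {k : ℕ}
    (P : Measure Ω) (y y' : Fin k → Ω → ℝ) : Integrable (Mis P m y y') P := by
  unfold Mis
  exact integrable_finsetSum _ fun i _ => integrable_condExp

theorem mis_bdd {Ω : Type} (m : MeasurableSpace Ω) [mΩ : MeasurableSpace Ω] {k : ℕ}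
    (P : Measure Ω) (y y' : Fin k → Ω → ℝ) :
    ∀ᵐ ω ∂P, |Mis P m y y' ω| ≤ k := by
  have h1 : ∀ i, ∀ᵐ ω ∂P, |(P[dl y y' i | m]) ω| ≤ 1 := by
    intro i
    have h2 : ∀ᵐ ω ∂P, |dl y y' i ω| ≤ (1 : ℝ) := by
      refine Eventually.of_forall fun ω => ?_
      unfold dl
      split_ifs <;> simp
    exact ae_bdd_abs_condExp_of_ae_bdd_abs (m := m) h2
  filter_upwards [ae_all_iff.2 h1] with ω hω
  unfold Mis
  calc |∑ i, (P[dl y y' i | m]) ω| ≤ ∑ i, |(P[dl y y' i | m]) ω| := Finset.abs_sum_le_sum_abs _ _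
    _ ≤ ∑ _i : Fin k, (1 : ℝ) := Finset.sum_le_sum fun i _ => hω i
    _ = k := by simp

theorem pf_SW (h3b : T_S3b) (h4 : T_S4) (h4b : T_S4b) (h5 : T_S5) (h6 : T_S6) : T_SW := by
  intro d η hη hsum hk
  obtain ⟨L, L₂, L₁, hL, hL₂, h⟩ := h6 d η hη hsum hk
  refine ⟨L₁, fun e he A hA => ?_⟩
  obtain ⟨hE, hs⟩ := h e he
  have hm := inv_le' (Ω := e.Ω) e.T d.W
  obtain ⟨h4b1, h4b2, h4b3, h4b4⟩ := h4b d e L L₂ hL hL₂
  have hA' : MeasurableSet A := hm A hA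
  have key := h4 e.Ω (Inv e.T d.W) e.P (fun t => Mis e.P (Inv e.T d.W) e.ys (e.yt t))
    (fun ω => d.k * (e.P[e.mv 1 | Inv e.T d.W]) ω) (fun B => e.EE L L₂ B) A hm
    (fun t => mis_meas _ _ _ _) (fun t => mis_int _ _ _ _)
    (fun t => by
      refine Integrable.of_bound ((mis_int _ _ _ _).aestronglyMeasurable.pow 2) ((d.k : ℝ) ^ 2) ?_
      filter_upwards [mis_bdd (Inv e.T d.W) e.P e.ys (e.yt t)] with ω hω
      rw [Real.norm_eq_abs, abs_pow]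
      exact pow_le_pow_left₀ (abs_nonneg _) hω 2)
    (stronglyMeasurable_condExp.measurable.const_mul _) hA h4b3 h4b4
    (fun B hB => h4b1 B (hm B hB)) (fun B B' hB hB' hd => h4b2 B B' (hm B hB) (hm B' hB') hd)
    (fun t B hB => h3b d e L L₂ t B hL hL₂ hB)
  have hEA := hE A hA'
  have hsub : (A ∩ {ω | ∀ b, 113 / 1000 < Mis e.P (Inv e.T d.W) e.ys (e.yb b) ω} : Set e.Ω)
      ≤ᵐ[e.P]
      ((A ∩ {ω | (d.k * (e.P[e.mv 1 | Inv e.T d.W]) ω ≤ 1 / 100) ∧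
        ∃ t, 113 / 1000 < Mis e.P (Inv e.T d.W) e.ys (e.yt t) ω}) ∪
      {ω | 1 / 100 < d.k * (e.P[e.mv 1 | Inv e.T d.W]) ω} : Set e.Ω) := by
    filter_upwards [h5 d e] with ω hω
    intro hin
    obtain ⟨hωA, hωb⟩ := hin
    by_cases hs0 : 1 / 100 < d.k * (e.P[e.mv 1 | Inv e.T d.W]) ω
    · exact Or.inr hs0
    · refine Or.inl ⟨hωA, not_lt.1 hs0, ?_⟩
      by_contra hcon
      push Not at hcon
      obtain ⟨b, hb⟩ := hω hcon
      exact absurd (hωb b) (not_lt.2 hb)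
  have h1 : e.P.real (A ∩ {ω | ∀ b, 113 / 1000 < Mis e.P (Inv e.T d.W) e.ys (e.yb b) ω}) ≤
      e.P.real ((A ∩ {ω | (d.k * (e.P[e.mv 1 | Inv e.T d.W]) ω ≤ 1 / 100) ∧
        ∃ t, 113 / 1000 < Mis e.P (Inv e.T d.W) e.ys (e.yt t) ω}) ∪
      {ω | 1 / 100 < d.k * (e.P[e.mv 1 | Inv e.T d.W]) ω} : Set e.Ω) :=
    ENNReal.toReal_mono (measure_ne_top _ _) (measure_mono_ae hsub)
  have h2 := measureReal_union_le (μ := e.P) (A ∩ {ω | (d.k * (e.P[e.mv 1 | Inv e.T d.W]) ω ≤ 1 / 100) ∧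
        ∃ t, 113 / 1000 < Mis e.P (Inv e.T d.W) e.ys (e.yt t) ω})
      {ω | 1 / 100 < d.k * (e.P[e.mv 1 | Inv e.T d.W]) ω}
  have hk0 : (0 : ℝ) ≤ d.k := Nat.cast_nonneg _
  have h7 : 100 * (d.k : ℝ) * η ≤ 180 * ((d.k : ℝ) + 1) ^ 2 * η := by
    apply mul_le_mul_of_nonneg_right _ hη.le
    nlinarith
  have key' : e.P.real (A ∩ {ω | (d.k * (e.P[e.mv 1 | Inv e.T d.W]) ω ≤ 1 / 100) ∧
        ∃ t, 113 / 1000 < Mis e.P (Inv e.T d.W) e.ys (e.yt t) ω}) ≤ 10 * e.EE L L₂ A := key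
  nlinarith [h1, h2, key', hEA, hs, h7]

end Pool.Agent.H68.AG
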